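import Pool.Agent.V11276.CB5

/-!
MP_918176_nt (2-adic valuation of `c_m(4n) - c_m(n)` for colored binary partitions), Q1.

Q1 is TRUE.

Proof.  With `v = (1+x)/(1-x)` and `z = v^2 - 1 = 4x/(1-x)^2` the generating function satisfies
`G(x) = v(x)^m G(x^2)`.  The even section maps `ℤ[z]` and `v ℤ[z]` into themselves, `z ℤ[z]` into
`2 z ℤ[z]` and `v z ℤ[z]` into `4 v z ℤ[z]`, and `c_m(2^(a+2) t) - c_m(2^a t)` is the `t`-th
coefficient of `G` times the `a`-fold image of an explicit element of `ℤ[z]`.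
-/

namespace Pool.Agent.Results.MP_918176_nt.QuestionOne

open PowerSeries

/-- The formal power series `∏_{i ≥ 0} (1 - x^(2^i))`: its `n`-th coefficient is the `n`-th
coefficient of the product of the factors with `i ≤ n` (the other factors are `1` modulo
`x^(n+1)`). -/
noncomputable def F : ℤ⟦X⟧ :=
  PowerSeries.mk fun n => coeff n (∏ i ∈ Finset.range (n + 1), (1 - (X : ℤ⟦X⟧) ^ (2 ^ i)))

/-- `c m n = c_m(n)`, the coefficient of `x^n` in `1 / ((1-x)^m ∏_{i ≥ 0} (1 - x^(2^i))^m)`. -/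
noncomputable def c (m n : ℕ) : ℤ := coeff n (invOfUnit ((1 - X) ^ m * F ^ m) 1)

/-- The valuation of `c_m(4n) - c_m(n)`, in `ℕ∞`. -/
noncomputable def val (m n : ℕ) : ℕ∞ := emultiplicity (2 : ℤ) (c m (4 * n) - c m n)

open Pool.Agent.V11276

theorem c_eq (m n : ℕ) : c m n = coeff n (CB.G m) := by
  unfold c CB.G CB.H
  rw [mul_pow]
  rfl

/-- Sanity check: the power series with coefficients `c m n` is the inverse of
`(1-x)^m ∏ (1 - x^(2^i))^m`. -/
theorem c_spec (m : ℕ) : ((1 - X) ^ m * F ^ m) * PowerSeries.mk (c m) = 1 := by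
  have h1 : PowerSeries.mk (c m) = CB.G m := by
    ext n; rw [coeff_mk, c_eq]
  have h2 : (1 - X : ℤ⟦X⟧) ^ m * F ^ m = CB.H ^ m := (mul_pow _ _ _).symm
  rw [h1, h2]
  exact CB.G_spec m

theorem val_eq (m n : ℕ) : val m n =
    emultiplicity 2 (coeff (4 * n) (CB.G m) - coeff n (CB.G m)) := by
  unfold val
  rw [c_eq, c_eq]

/-- Q1 of the problem. -/
theorem result : ∀ k n : ℕ, 0 < k → 0 < n →
    val (2 * k) n = (padicValNat 2 n + 2 * padicValNat 2 k + 3 : ℕ) := by
  intro k n hk hn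
  rw [val_eq]
  exact CB.even_case k hk n hn

end Pool.Agent.Results.MP_918176_nt.QuestionOne
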