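import Pool.Agent.V11276.CB5

/-!
MP_918176_nt (2-adic valuation of `c_m(4n) - c_m(n)` for colored binary partitions), Q2.

Q2 is FALSE as stated: both inequalities hold for all `k` and `n`, and in the first one
equality holds for infinitely many `n` for every `k`, but in the second one equality holds for
infinitely many `n` exactly when `k` is not `3` modulo `4`; for `k ≡ 3 mod 4` (i.e. `m ≡ 15 mod 16`)
it never holds.

Proof.  With `v = (1+x)/(1-x)` and `z = v^2 - 1 = 4x/(1-x)^2` the generating function satisfies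
`G(x) = v(x)^m G(x^2)`.  The even section maps `ℤ[z]` and `v ℤ[z]` into themselves, `z ℤ[z]` into
`2 z ℤ[z]` and `v z ℤ[z]` into `4 v z ℤ[z]`, and `c_m(2^(a+2) t) - c_m(2^a t)` is the `t`-th
coefficient of `G` times the `a`-fold image of an explicit element of `ℤ[z]`.
-/

namespace Pool.Agent.Results.MP_918176_nt.QuestionTwo

open PowerSeries

/-- The formal power series `∏_{i ≥ 0} (1 - x^(2^i))`: its `n`-th coefficient is the `n`-th
coefficient of the product of the factors with `i ≤ n` (the other factors are `1` modulo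
`x^(n+1)`). -/
noncomputable def F : ℤ⟦X⟧ :=
  PowerSeries.mk fun n => coeff n (∏ i ∈ Finset.range (n + 1), (1 - (X : ℤ⟦X⟧) ^ (2 ^ i)))

/-- `c m n = c_m(n)`, the coefficient of `x^n` in `1 / ((1-x)^m ∏_{i ≥ 0} (1 - x^(2^i))^m)`. -/
noncomputable def c (m n : ℕ) : ℤ := coeff n (invOfUnit ((1 - X) ^ m * F ^ m) 1)

/-- The valuation of `c_m(4n) - c_m(n)`, in `ℕ∞`. -/
noncomputable def val (m n : ℕ) : ℕ∞ := emultiplicity (2 : ℤ) (c m (4 * n) - c m n)

/-- Q2 of the problem. -/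
def Q2 : Prop := ∀ k : ℕ,
  (∀ n : ℕ, 0 < n → (padicValNat 2 n + 3 : ℕ) ≤ val (4 * k + 1) n) ∧
  (∀ n : ℕ, 0 < n → (padicValNat 2 n + 6 : ℕ) ≤ val (4 * k + 3) n) ∧
  {n : ℕ | 0 < n ∧ val (4 * k + 1) n = (padicValNat 2 n + 3 : ℕ)}.Infinite ∧
  {n : ℕ | 0 < n ∧ val (4 * k + 3) n = (padicValNat 2 n + 6 : ℕ)}.Infinite

open Pool.Agent.V11276

theorem c_eq (m n : ℕ) : c m n = coeff n (CB.G m) := by
  unfold c CB.G CB.H
  rw [mul_pow]
  rfl

/-- Sanity check: the power series with coefficients `c m n` is the inverse of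
`(1-x)^m ∏ (1 - x^(2^i))^m`. -/
theorem c_spec (m : ℕ) : ((1 - X) ^ m * F ^ m) * PowerSeries.mk (c m) = 1 := by
  have h1 : PowerSeries.mk (c m) = CB.G m := by
    ext n; rw [coeff_mk, c_eq]
  have h2 : (1 - X : ℤ⟦X⟧) ^ m * F ^ m = CB.H ^ m := (mul_pow _ _ _).symm
  rw [h1, h2]
  exact CB.G_spec m

theorem val_eq (m n : ℕ) : val m n =
    emultiplicity 2 (coeff (4 * n) (CB.G m) - coeff n (CB.G m)) := by
  unfold val
  rw [c_eq, c_eq]

theorem val_odd {t : ℕ} (ht : Odd t) : padicValNat 2 t = 0 :=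
  padicValNat.eq_zero_of_not_dvd (by rcases ht with ⟨c, rfl⟩; omega)

theorem val_two_odd {t : ℕ} (ht : Odd t) : padicValNat 2 (2 * t) = 1 := by
  have h0 : t ≠ 0 := by rintro rfl; exact absurd ht (by decide)
  rw [padicValNat.mul (by norm_num) h0, val_odd ht, padicValNat_self]

theorem result : ¬ Q2 ∧
    -- both inequalities of Q2 hold
    (∀ k n : ℕ, 0 < n → (padicValNat 2 n + 3 : ℕ) ≤ val (4 * k + 1) n) ∧
    (∀ k n : ℕ, 0 < n → (padicValNat 2 n + 6 : ℕ) ≤ val (4 * k + 3) n) ∧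
    -- equality in the first one
    (∀ k : ℕ, {n : ℕ | 0 < n ∧ val (4 * k + 1) n = (padicValNat 2 n + 3 : ℕ)}.Infinite) ∧
    -- equality in the second one
    (∀ k : ℕ, k % 4 ≠ 3 →
      {n : ℕ | 0 < n ∧ val (4 * k + 3) n = (padicValNat 2 n + 6 : ℕ)}.Infinite) ∧
    (∀ k n : ℕ, k % 4 = 3 → 0 < n → (padicValNat 2 n + 7 : ℕ) ≤ val (4 * k + 3) n) := by
  have h7 : ∀ k n : ℕ, k % 4 = 3 → 0 < n →
      (padicValNat 2 n + 7 : ℕ) ≤ val (4 * k + 3) n := by
    intro k n hk hn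
    rw [val_eq, ← pow_dvd_iff_le_emultiplicity]
    obtain ⟨j, rfl⟩ : ∃ j, k = 4 * j + 3 := ⟨k / 4, by omega⟩
    rw [show 4 * (4 * j + 3) + 3 = 16 * j + 15 by ring]
    exact CB.bound15 j n hn
  refine ⟨?_, ?_, ?_, ?_, ?_, h7⟩
  · intro h
    obtain ⟨n, hn, he⟩ := (h 3).2.2.2.nonempty
    have h1 := h7 3 n (by norm_num) hn
    rw [he] at h1
    have h2 : padicValNat 2 n + 7 ≤ padicValNat 2 n + 6 := by exact_mod_cast h1
    omega
  · intro k n hn
    rw [val_eq, ← pow_dvd_iff_le_emultiplicity]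
    exact CB.bound1 k n hn
  · intro k n hn
    rw [val_eq, ← pow_dvd_iff_le_emultiplicity]
    exact CB.bound3 k n hn
  · intro k
    refine Set.infinite_of_injective_forall_mem (f := fun i : ℕ => 2 * i + 1)
      (fun a b h => by simpa using h) fun i => ⟨by positivity, ?_⟩
    have ht : Odd (2 * i + 1) := ⟨i, rfl⟩
    rw [val_eq, val_odd ht]
    exact CB.eq1 k _ ht
  · intro k hk
    rcases Nat.even_or_odd' k with ⟨j, hj | hj⟩
    · subst hj
      refine Set.infinite_of_injective_forall_mem (f := fun i : ℕ => 2 * (2 * i + 1))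
        (fun a b h => by simpa using h) fun i => ⟨by positivity, ?_⟩
      have ht : Odd (2 * i + 1) := ⟨i, rfl⟩
      rw [val_eq, val_two_odd ht, show 4 * (2 * j) + 3 = 8 * j + 3 by ring]
      exact CB.eq3 j _ ht
    · obtain ⟨i, rfl⟩ : ∃ i, k = 4 * i + 1 := ⟨k / 4, by omega⟩
      refine Set.infinite_of_injective_forall_mem (f := fun i : ℕ => 2 * i + 1)
        (fun a b h => by simpa using h) fun l => ⟨by positivity, ?_⟩
      have ht : Odd (2 * l + 1) := ⟨l, rfl⟩
      rw [val_eq, val_odd ht, show 4 * (4 * i + 1) + 3 = 16 * i + 7 by ring]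
      exact CB.eq7 i _ ht

end Pool.Agent.Results.MP_918176_nt.QuestionTwo
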